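import Mathlib
import Pool.Agent.Results.MP_00321d_lc.NotAvoidable

/-!
# Terminal-comprising ambiguity: renaming of variables, embedding, rigid concatenations
(auxiliary file for `Pool.Agent.Results.MP_00321d_lc.TwoAbsentLetters`)
-/

set_option autoImplicit false

namespace Pool.Agent.Y846.TC

open Pool.Agent.Results.MP_00321d_lc.NotAvoidable

variable {S : Type}

/-- renaming of the variables -/
def ren (r : ℕ → ℕ) (α : Pattern S) : Pattern S := α.map (Sum.map r id)

@[simp] theorem ren_nil (r : ℕ → ℕ) : ren r ([] : Pattern S) = [] := rfl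
@[simp] theorem ren_inl (r : ℕ → ℕ) (v : ℕ) (α : Pattern S) :
    ren r (Sum.inl v :: α) = Sum.inl (r v) :: ren r α := by simp [ren]
@[simp] theorem ren_inr (r : ℕ → ℕ) (a : S) (α : Pattern S) :
    ren r (Sum.inr a :: α) = Sum.inr a :: ren r α := by simp [ren]
@[simp] theorem ren_append (r : ℕ → ℕ) (α β : Pattern S) :
    ren r (α ++ β) = ren r α ++ ren r β := by simp [ren]
@[simp] theorem ren_length (r : ℕ → ℕ) (α : Pattern S) : (ren r α).length = α.length := by
  simp [ren]

theorem mem_inr_ren (r : ℕ → ℕ) (a : S) (α : Pattern S) :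
    Sum.inr a ∈ ren r α ↔ Sum.inr a ∈ α := by
  induction α with
  | nil => simp
  | cons s α ih =>
    rcases s with v | b
    · simp [ih]
    · simp [ih]

theorem mem_inl_ren (r : ℕ → ℕ) (x : ℕ) (α : Pattern S) :
    Sum.inl x ∈ ren r α ↔ ∃ v, Sum.inl v ∈ α ∧ r v = x := by
  induction α with
  | nil => simp
  | cons s α ih =>
    rcases s with v | b
    · simp only [ren_inl, List.mem_cons, Sum.inl.injEq, ih]
      constructor
      · rintro (h | ⟨w, hw, h⟩)
        · exact ⟨v, Or.inl rfl, h.symm⟩
        · exact ⟨w, Or.inr hw, h⟩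
      · rintro ⟨w, hw | hw, h⟩
        · left; rw [← h, hw]
        · right; exact ⟨w, hw, h⟩
    · simp [ih]

theorem app_ren (σ : ℕ → List S) (r : ℕ → ℕ) (α : Pattern S) :
    app σ (ren r α) = app (fun v => σ (r v)) α := by
  induction α with
  | nil => rfl
  | cons s α ih =>
    rcases s with v | b
    · simp [ih]
    · simp [ih]

@[simp] theorem origin_nil (σ : ℕ → List S) : origin σ ([] : Pattern S) = [] := rfl
@[simp] theorem origin_inl (σ : ℕ → List S) (v : ℕ) (α : Pattern S) :
    origin σ (Sum.inl v :: α) = (σ v).map (fun a => (a, false)) ++ origin σ α := by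
  simp [origin]
@[simp] theorem origin_inr (σ : ℕ → List S) (a : S) (α : Pattern S) :
    origin σ (Sum.inr a :: α) = (a, true) :: origin σ α := by simp [origin]

theorem origin_ren (σ : ℕ → List S) (r : ℕ → ℕ) (α : Pattern S) :
    origin σ (ren r α) = origin (fun v => σ (r v)) α := by
  induction α with
  | nil => rfl
  | cons s α ih =>
    rcases s with v | b
    · simp [ih]
    · simp [ih]

theorem app_congr {σ τ : ℕ → List S} {α : Pattern S}
    (h : ∀ v, Sum.inl v ∈ α → σ v = τ v) : app σ α = app τ α := by
  induction α with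
  | nil => rfl
  | cons s α ih =>
    have ih' := ih (fun v hv => h v (List.mem_cons_of_mem _ hv))
    rcases s with v | b
    · simp [ih', h v (by simp)]
    · simp [ih']

theorem origin_congr {σ τ : ℕ → List S} {α : Pattern S}
    (h : ∀ v, Sum.inl v ∈ α → σ v = τ v) : origin σ α = origin τ α := by
  induction α with
  | nil => rfl
  | cons s α ih =>
    have ih' := ih (fun v hv => h v (List.mem_cons_of_mem _ hv))
    rcases s with v | b
    · simp [ih', h v (by simp)]
    · simp [ih']

/-- **Embedding.** Ambiguity of a renamed part whose variables do not occur elsewhere gives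
ambiguity of the whole pattern. -/
theorem emb {r : ℕ → ℕ} (hr : Function.Injective r) (A α B : Pattern S)
    (hA : ∀ v, Sum.inl (r v) ∉ A) (hB : ∀ v, Sum.inl (r v) ∉ B) (σ : ℕ → List S)
    (h : TCAmbiguous (fun v => σ (r v)) α) : TCAmbiguous σ (A ++ (ren r α ++ B)) := by
  classical
  obtain ⟨τ₁, τ₂, h1, h2, i, c, h3, h4⟩ := h
  let ext : (ℕ → List S) → ℕ → List S := fun τ x =>
    if hx : ∃ v, r v = x then τ hx.choose else σ x
  have e1 : ∀ τ : ℕ → List S, (fun v => ext τ (r v)) = τ := by
    intro τ
    funext v
    have hx : ∃ w, r w = r v := ⟨v, rfl⟩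
    have : hx.choose = v := hr hx.choose_spec
    simp only [ext, dif_pos hx, this]
  have e2 : ∀ (τ : ℕ → List S) (C : Pattern S), (∀ v, Sum.inl (r v) ∉ C) →
      ∀ v, Sum.inl v ∈ C → ext τ v = σ v := by
    intro τ C hC v hv
    have hx : ¬ ∃ w, r w = v := by
      rintro ⟨w, rfl⟩
      exact hC w hv
    simp only [ext, dif_neg hx]
  have a1 : ∀ τ : ℕ → List S, app τ α = app (fun v => σ (r v)) α →
      app (ext τ) (A ++ (ren r α ++ B)) = app σ (A ++ (ren r α ++ B)) := by
    intro τ hτ
    rw [app_append, app_append, app_append, app_append, app_ren, app_ren, e1 τ, hτ,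
      app_congr (e2 τ A hA), app_congr (e2 τ B hB)]
  have o1 : ∀ τ : ℕ → List S, origin (ext τ) (A ++ (ren r α ++ B)) =
      origin σ A ++ (origin τ α ++ origin σ B) := by
    intro τ
    rw [origin_append, origin_append, origin_ren, e1 τ, origin_congr (e2 τ A hA),
      origin_congr (e2 τ B hB)]
  have key : ∀ (τ : ℕ → List S) (t : S × Bool), (origin τ α)[i]? = some t →
      (origin (ext τ) (A ++ (ren r α ++ B)))[(origin σ A).length + i]? = some t := by
    intro τ t ht
    rw [o1 τ, List.getElem?_append_right (by omega)]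
    have hlt : i < (origin τ α).length := by
      by_contra hge
      rw [List.getElem?_eq_none (by omega)] at ht
      exact absurd ht (by simp)
    rw [show (origin σ A).length + i - (origin σ A).length = i by omega,
      List.getElem?_append_left hlt]
    exact ht
  exact ⟨ext τ₁, ext τ₂, a1 τ₁ h1, a1 τ₂ h2, (origin σ A).length + i, c, key τ₁ _ h3,
    key τ₂ _ h4⟩

/-- the number of terminals does not change under terminal-free morphisms -/
theorem count_msub {h : ℕ → Pattern S} (hh : ∀ v, TF (h v)) (α : Pattern S) :
    (msub h α).countP Sum.isRight = α.countP Sum.isRight := by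
  induction α with
  | nil => rfl
  | cons s α ih =>
    rcases s with v | a
    · rw [msub_inl, List.countP_append, ih, List.countP_cons_of_neg (by simp)]
      have : (h v).countP Sum.isRight = 0 := by
        rw [List.countP_eq_zero]
        intro t ht
        rcases t with w | b
        · simp
        · exact absurd ht (hh v b)
      omega
    · rw [msub_inr, List.countP_cons_of_pos (by simp), List.countP_cons_of_pos (by simp), ih]

theorem split_count {a b : S} : ∀ (A A' B B' : Pattern S),
    A.countP Sum.isRight = A'.countP Sum.isRight →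
    A ++ Sum.inr a :: B = A' ++ Sum.inr b :: B' → A = A' ∧ B = B' := by
  intro A
  induction A with
  | nil =>
    intro A' B B' hc h
    cases A' with
    | nil => simpa using (List.cons.inj h).2
    | cons t A' =>
      simp only [List.nil_append, List.cons_append, List.cons.injEq] at h
      rw [← h.1, List.countP_cons_of_pos (by simp), List.countP_nil] at hc
      omega
  | cons s A ih =>
    intro A' B B' hc h
    cases A' with
    | nil =>
      simp only [List.nil_append, List.cons_append, List.cons.injEq] at h
      rw [h.1] at hc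
      simp at hc
    | cons t A' =>
      simp only [List.cons_append, List.cons.injEq] at h
      obtain ⟨rfl, h⟩ := h
      have hc' : A.countP Sum.isRight = A'.countP Sum.isRight := by
        rcases s with v | c
        · rw [List.countP_cons_of_neg (by simp), List.countP_cons_of_neg (by simp)] at hc
          exact hc
        · rw [List.countP_cons_of_pos (by simp), List.countP_cons_of_pos (by simp)] at hc
          omega
      obtain ⟨e1, e2⟩ := ih A' B B' hc' h
      exact ⟨by rw [e1], e2⟩

/-- a fixed pattern splits at every terminal -/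
theorem fix_split {h : ℕ → Pattern S} (hh : ∀ v, TF (h v)) {A B : Pattern S} {c : S}
    (hf : msub h (A ++ Sum.inr c :: B) = A ++ Sum.inr c :: B) : msub h A = A ∧ msub h B = B := by
  rw [msub_append, msub_inr] at hf
  exact split_count _ _ _ _ (count_msub hh A) hf

/-- `α` is fixed only by the morphisms which fix its variables. -/
def Rig (α : Pattern S) : Prop :=
  ∀ h : ℕ → Pattern S, (∀ v, TF (h v)) → msub h α = α → ∀ v, Sum.inl v ∈ α → h v = [Sum.inl v]

/-- rigid patterns are morphically primitive -/
theorem prim_of_rig {α : Pattern S} (hα : Rig α) : MorphPrimitive α := by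
  classical
  rintro ⟨β, φ, ψ, hlen, h1, h2⟩
  subst h1
  rw [msub_msub] at h2
  set h : ℕ → Pattern S := fun v => msub ψ (φ v) with hh
  have htf : ∀ v, Sum.inl v ∈ α → TF (h v) := by
    intro v hv
    have h3 := (count_term h α).2 v hv
    rw [h2] at h3
    have h4 : (h v).countP Sum.isRight = 0 := by omega
    rw [List.countP_eq_zero] at h4
    intro a ha
    simpa using h4 _ ha
  set h' : ℕ → Pattern S := fun v => if TF (h v) then h v else [] with hh'
  have e1 : msub h' α = α := by
    refine Eq.trans ?_ h2
    apply msub_congr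
    intro v hv
    simp [hh', htf v hv]
  have e2 : ∀ v, TF (h' v) := by
    intro v
    simp only [hh']
    split_ifs with h5
    · exact h5
    · intro a; simp
  have e3 := hα h' e2 e1
  have e4 : ∀ v, Sum.inl v ∈ α → φ v ≠ [] := by
    intro v hv h6
    have h7 := e3 v hv
    have h8 : h v = [] := by simp [hh, h6]
    simp [hh', h8] at h7
  have := length_msub φ α e4
  omega

theorem ren_msub (s r : ℕ → ℕ) (h : ℕ → Pattern S) (α : Pattern S) :
    ren s (msub h (ren r α)) = msub (fun v => ren s (h (r v))) α := by
  induction α with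
  | nil => rfl
  | cons t α ih =>
    rcases t with v | a
    · simp [ih]
    · simp [ih]

theorem ren_ren_inv {s r : ℕ → ℕ} (hs : ∀ v, s (r v) = v) (α : Pattern S) :
    ren s (ren r α) = α := by
  induction α with
  | nil => rfl
  | cons t α ih =>
    rcases t with v | a
    · simp [ih, hs]
    · simp [ih]

theorem mem_msub {h : ℕ → Pattern S} {v : ℕ} {α : Pattern S} (hv : Sum.inl v ∈ α)
    {t : ℕ ⊕ S} (ht : t ∈ h v) : t ∈ msub h α := by
  unfold msub
  exact List.mem_flatMap.mpr ⟨Sum.inl v, hv, ht⟩

/-- rigidity is preserved by injective renamings -/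
theorem rig_ren {r : ℕ → ℕ} (hr : Function.Injective r) {α : Pattern S} (hα : Rig α) :
    Rig (ren r α) := by
  classical
  intro h hh hf x hx
  obtain ⟨v, hv, rfl⟩ := (mem_inl_ren r x α).mp hx
  let s : ℕ → ℕ := Function.invFun r
  have hs : ∀ v, s (r v) = v := Function.leftInverse_invFun hr
  have e1 : msub (fun v => ren s (h (r v))) α = α := by
    rw [← ren_msub, hf, ren_ren_inv hs]
  have e2 : ∀ v, TF (ren s (h (r v))) := by
    intro v a ha
    exact hh (r v) a ((mem_inr_ren s a _).mp ha)
  have e3 := hα _ e2 e1 v hv
  -- `h (r v)` is one letter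
  have hlen : (h (r v)).length = 1 := by
    have := congrArg List.length e3
    simpa using this
  obtain ⟨t, ht⟩ := List.length_eq_one_iff.mp hlen
  rw [ht] at e3 ⊢
  rcases t with w | a
  · simp only [ren_inl, ren_nil, List.cons.injEq, Sum.inl.injEq, and_true] at e3
    have hw : Sum.inl w ∈ ren r α := by
      have : Sum.inl w ∈ msub h (ren r α) := mem_msub hx (by rw [ht]; simp)
      rwa [hf] at this
    obtain ⟨w', -, rfl⟩ := (mem_inl_ren r w α).mp hw
    rw [hs] at e3
    rw [e3]
  · simp at e3

/-- the chain `x₁ c x₂ c ⋯ x_k c γ` -/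
def chain (c : S) : List ℕ → Pattern S → Pattern S
  | [], γ => γ
  | x :: l, γ => Sum.inl x :: Sum.inr c :: chain c l γ

theorem chain_fix {h : ℕ → Pattern S} (hh : ∀ v, TF (h v)) (c : S) (l : List ℕ)
    (γ : Pattern S) (hf : msub h (chain c l γ) = chain c l γ) :
    (∀ x ∈ l, h x = [Sum.inl x]) ∧ msub h γ = γ := by
  induction l with
  | nil => exact ⟨by simp, hf⟩
  | cons x l ih =>
    have hf' : msub h ([Sum.inl x] ++ Sum.inr c :: chain c l γ) =
        [Sum.inl x] ++ Sum.inr c :: chain c l γ := hf
    obtain ⟨e1, e2⟩ := fix_split hh hf'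
    obtain ⟨e3, e4⟩ := ih e2
    refine ⟨?_, e4⟩
    intro y hy
    rcases List.mem_cons.mp hy with rfl | hy
    · simpa using e1
    · exact e3 y hy

theorem mem_inr_chain (c : S) (l : List ℕ) (γ : Pattern S) (a : S) :
    Sum.inr a ∈ chain c l γ ↔ (l ≠ [] ∧ a = c) ∨ Sum.inr a ∈ γ := by
  induction l with
  | nil => simp [chain]
  | cons x l ih =>
    simp only [chain, List.mem_cons, reduceCtorEq, Sum.inr.injEq, ih, false_or, ne_eq,
      not_false_eq_true, true_and]
    tauto

theorem mem_inl_chain (c : S) (l : List ℕ) (γ : Pattern S) (x : ℕ) :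
    Sum.inl x ∈ chain c l γ ↔ x ∈ l ∨ Sum.inl x ∈ γ := by
  induction l with
  | nil => simp [chain]
  | cons y l ih =>
    simp only [chain, List.mem_cons, Sum.inl.injEq, reduceCtorEq, ih, false_or]
    tauto

theorem chain_eq (c : S) (l : List ℕ) (γ : Pattern S) : chain c l γ = chain c l [] ++ γ := by
  induction l with
  | nil => rfl
  | cons x l ih => rw [chain, ih]; simp [chain]

theorem chain_length (c : S) (l : List ℕ) (γ : Pattern S) :
    (chain c l γ).length = 2 * l.length + γ.length := by
  induction l with
  | nil => simp [chain]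
  | cons x l ih => simp only [chain, List.length_cons, ih]; omega

end Pool.Agent.Y846.TC
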