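import Mathlib
import Pool.Agent.Y846.TC.Base

/-!
# The gadgets for a finite set of terminal letters
(auxiliary file for `Pool.Agent.Results.MP_00321d_lc.TwoAbsentLetters`)
-/

set_option autoImplicit false

namespace Pool.Agent.Y846.TC

open Pool.Agent.Results.MP_00321d_lc.NotAvoidable

variable {S : Type}

theorem mem_inr_stf (n i : ℕ) (a : S) : Sum.inr a ∉ (stf n i : Pattern S) := tf_stf n i a

theorem mem_inr_blk (n : ℕ) (T : ℕ → S) (i : ℕ) (a : S) :
    Sum.inr a ∈ blk n T i ↔ a = T i ∨ a = T (i + 1) := by
  have h1 := tf_B1 (S := S) n i a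
  have h2 := tf_B2 (S := S) n i a
  simp only [blk, List.mem_cons, List.mem_append, h1, h2, Sum.inr.injEq, V, reduceCtorEq,
    List.not_mem_nil, false_or, or_false]
  tauto

theorem mem_inr_pat (n : ℕ) (hn : 1 ≤ n) (T : ℕ → S) (a : S) :
    Sum.inr a ∈ pat n T ↔ ∃ j ≤ n, a = T j := by
  simp only [pat, pre, V, List.mem_cons, reduceCtorEq, false_or, List.mem_flatMap, List.mem_range,
    mem_inr_blk]
  constructor
  · rintro ⟨i, hi, h | h⟩
    · exact ⟨i, by omega, h⟩
    · exact ⟨i + 1, by omega, h⟩
  · rintro ⟨j, hj, h⟩
    rcases Nat.lt_or_ge j n with h1 | h1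
    · exact ⟨j, h1, Or.inl h⟩
    · obtain rfl : j = n := by omega
      exact ⟨j - 1, by omega, Or.inr (by rw [show j - 1 + 1 = j by omega]; exact h)⟩

theorem length_blk (n : ℕ) (T : ℕ → S) (i : ℕ) : (blk n T i).length ≤ 26 := by
  have h1 : (stf n i : Pattern S).length ≤ 6 := by
    unfold stf uu hl
    split_ifs <;> simp
  simp only [blk, B1, B2, List.length_cons, List.length_append, List.length_nil]
  omega

theorem length_pat (n : ℕ) (T : ℕ → S) : (pat n T).length ≤ 26 * n + 1 := by
  have : ∀ l : List ℕ, (l.flatMap (blk n T)).length ≤ 26 * l.length := by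
    intro l
    induction l with
    | nil => simp
    | cons i l ih =>
      have := length_blk n T i
      simp only [List.flatMap_cons, List.length_append, List.length_cons]
      omega
  have h := this (List.range n)
  rw [List.length_range] at h
  simp only [pat, pre, List.length_cons]
  omega

/-- for every finite nonempty set `F` of letters there is a rigid pattern with terminal letters
exactly `F` for which every substitution which uses a letter of `F` for the variable `0` is
ambiguous -/
theorem gadget (F : Finset S) (hF : F.Nonempty) : ∃ G : Pattern S,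
    (∀ a, Sum.inr a ∈ G ↔ a ∈ F) ∧ Rig G ∧ G.length ≤ 26 * F.card ∧
      ∀ σ : ℕ → List S, (∃ a ∈ F, a ∈ σ 0) → TCAmbiguous σ G := by
  classical
  obtain ⟨n, hn⟩ : ∃ n, F.card = n + 1 := ⟨F.card - 1, by have := hF.card_pos; omega⟩
  let e : F ≃ Fin (n + 1) := F.equivFin.trans (finCongr hn)
  let T : ℕ → S := fun j => (e.symm (Fin.ofNat (n + 1) j)).1
  have hT1 : ∀ j, T j ∈ F := fun j => (e.symm (Fin.ofNat (n + 1) j)).2
  have hT2 : ∀ a ∈ F, ∃ j ≤ n, a = T j := by
    intro c hc
    refine ⟨(e ⟨c, hc⟩).val, by have := (e ⟨c, hc⟩).isLt; omega, ?_⟩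
    simp only [T]
    rw [show Fin.ofNat (n + 1) (e ⟨c, hc⟩).val = e ⟨c, hc⟩ from by
      apply Fin.ext; simp [Fin.ofNat, Nat.mod_eq_of_lt (e ⟨c, hc⟩).isLt]]
    simp
  rcases Nat.eq_zero_or_pos n with h0 | h0
  · subst h0
    have hF1 : ∀ a, a ∈ F ↔ a = T 0 := by
      intro a
      constructor
      · intro ha
        obtain ⟨j, hj, h⟩ := hT2 a ha
        rw [h, show j = 0 by omega]
      · rintro rfl
        exact hT1 0
    refine ⟨[Sum.inl 0, Sum.inr (T 0), Sum.inl 1], ?_, ?_, ?_, ?_⟩
    · intro a
      rw [hF1]
      simp
    · intro h hh hf v hv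
      obtain ⟨e1, e2⟩ := fix_split hh (A := [Sum.inl 0]) (B := [Sum.inl 1]) (c := T 0) hf
      simp only [List.mem_cons, Sum.inl.injEq, reduceCtorEq, List.not_mem_nil, or_false,
        false_or] at hv
      rcases hv with rfl | rfl
      · simpa using e1
      · simpa using e2
    · simp; omega
    · rintro σ ⟨a, ha, hm⟩
      rw [hF1] at ha
      subst ha
      obtain ⟨P, Q, hU⟩ := List.append_of_mem hm
      refine amb_of σ (fun x => if x = 0 then P else Q ++ T 0 :: σ 1)
        [Sum.inl 0, Sum.inr (T 0), Sum.inl 1] [Sum.inl 0] [Sum.inl 1] []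
        [Sum.inr (T 0), Sum.inl 1] 0 (T 0) P Q rfl rfl hU ?_ ?_
      · simp
      · simp [hU]
  · refine ⟨pat n T, ?_, ?_, ?_, ?_⟩
    · intro a
      rw [mem_inr_pat n h0]
      constructor
      · rintro ⟨j, -, rfl⟩
        exact hT1 j
      · exact hT2 a
    · intro h hh hf
      exact rigid n h0 T h hh hf
    · have := length_pat n T
      omega
    · rintro σ ⟨a, ha, hm⟩
      obtain ⟨j, hj, rfl⟩ := hT2 a ha
      exact amb_pat n T σ j hj h0 hm

/-- the extension theorem -/
theorem extension (F : Finset S) (hF : F.Nonempty) (β : Pattern S)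
    (hβ : ∀ a, Sum.inr a ∈ β → a ∈ F) :
    ∃ (γ : Pattern S) (u v : ℕ), u ≠ v ∧ MorphPrimitive (β ++ γ) ∧
      (∀ a, Sum.inr a ∈ β ++ γ ↔ a ∈ F) ∧ γ.length ≤ 2 * β.length + 54 * F.card ∧
      ∀ σ : ℕ → List S, (∃ a ∈ F, a ∈ σ u ∨ a ∈ σ v) → TCAmbiguous σ (β ++ γ) := by
  classical
  obtain ⟨G, hG1, hG2, hG3, hG4⟩ := gadget F hF
  obtain ⟨c, hc⟩ := hF
  -- the variables of `β`
  let vs : List ℕ := β.filterMap (Sum.elim some (fun _ => none))
  have hvs : ∀ x, x ∈ vs ↔ Sum.inl x ∈ β := by
    intro x
    simp only [vs, List.mem_filterMap]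
    constructor
    · rintro ⟨t, ht, h⟩
      rcases t with w | a
      · simp at h
        rw [← h]; exact ht
      · simp at h
    · intro h
      exact ⟨Sum.inl x, h, rfl⟩
  have hvl : vs.length ≤ β.length := List.length_filterMap_le _ _
  let N : ℕ := vs.foldr max 0 + 1
  have hN : ∀ x, Sum.inl x ∈ β → x < N := by
    intro x hx
    have : ∀ l : List ℕ, x ∈ l → x ≤ l.foldr max 0 := by
      intro l
      induction l with
      | nil => simp
      | cons y l ih =>
        intro h
        rcases List.mem_cons.mp h with rfl | h
        · simp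
        · have := ih h
          simp only [List.foldr_cons]
          omega
    have := this vs ((hvs x).mpr hx)
    omega
  let r1 : ℕ → ℕ := fun v => 2 * (v + N)
  let r2 : ℕ → ℕ := fun v => 2 * (v + N) + 1
  have hr1 : Function.Injective r1 := by
    intro a b h; simp only [r1] at h; omega
  have hr2 : Function.Injective r2 := by
    intro a b h; simp only [r2] at h; omega
  let γ : Pattern S := Sum.inr c :: chain c vs (ren r1 G ++ Sum.inr c :: ren r2 G)
  refine ⟨γ, r1 0, r2 0, by simp only [r1, r2]; omega, ?_, ?_, ?_, ?_⟩
  · apply prim_of_rig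
    intro h hh hf
    obtain ⟨e1, e2⟩ := fix_split hh hf
    obtain ⟨e3, e4⟩ := chain_fix hh c vs _ e2
    obtain ⟨e5, e6⟩ := fix_split hh e4
    have f1 := rig_ren hr1 hG2 h hh e5
    have f2 := rig_ren hr2 hG2 h hh e6
    intro x hx
    rw [List.mem_append] at hx
    rcases hx with hx | hx
    · exact e3 x ((hvs x).mpr hx)
    · simp only [γ, List.mem_cons, reduceCtorEq, false_or, mem_inl_chain, List.mem_append] at hx
      rcases hx with hx | hx | hx
      · exact e3 x hx
      · exact f1 x hx
      · exact f2 x hx
  · intro a
    simp only [γ, List.mem_append, List.mem_cons, Sum.inr.injEq, mem_inr_chain, mem_inr_ren, hG1]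
    constructor
    · rintro (h | h | ⟨-, h⟩ | h | h | h)
      · exact hβ a h
      all_goals first | exact h | (rw [h]; exact hc)
    · intro h
      tauto
  · simp only [γ, List.length_cons, chain_length, List.length_append, ren_length]
    have : 1 ≤ F.card := Finset.card_pos.mpr ⟨c, hc⟩
    omega
  · rintro σ ⟨a, ha, h | h⟩
    · have hamb := hG4 (fun v => σ (r1 v)) ⟨a, ha, h⟩
      have key := emb hr1 (β ++ Sum.inr c :: chain c vs []) G (Sum.inr c :: ren r2 G) ?_ ?_ σ hamb
      · have e : β ++ γ = (β ++ Sum.inr c :: chain c vs []) ++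
            (ren r1 G ++ Sum.inr c :: ren r2 G) := by
          simp only [γ]
          rw [chain_eq]
          simp
        rw [e]
        exact key
      · intro v hv
        simp only [List.mem_append, List.mem_cons, reduceCtorEq, false_or, mem_inl_chain,
          List.not_mem_nil, or_false, hvs] at hv
        have hv' : Sum.inl (r1 v) ∈ β := by tauto
        have := hN _ hv'
        simp only [r1] at this
        omega
      · intro v hv
        simp only [List.mem_cons, reduceCtorEq, false_or, mem_inl_ren] at hv
        obtain ⟨w, -, hw⟩ := hv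
        simp only [r1, r2] at hw
        omega
    · have hamb := hG4 (fun v => σ (r2 v)) ⟨a, ha, h⟩
      have key := emb hr2 (β ++ Sum.inr c :: chain c vs (ren r1 G ++ [Sum.inr c])) G [] ?_ ?_ σ
        hamb
      · have e : β ++ γ = (β ++ Sum.inr c :: chain c vs (ren r1 G ++ [Sum.inr c])) ++
            (ren r2 G ++ []) := by
          simp only [γ]
          rw [chain_eq, chain_eq c vs (ren r1 G ++ [Sum.inr c])]
          simp
        rw [e]
        exact key
      · intro v hv
        simp only [List.mem_append, List.mem_cons, reduceCtorEq, false_or, mem_inl_chain,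
          List.not_mem_nil, or_false, hvs, mem_inl_ren] at hv
        rcases hv with hv | hv | ⟨w, -, hw⟩
        · have := hN _ hv
          simp only [r2] at this
          omega
        · have := hN _ hv
          simp only [r2] at this
          omega
        · simp only [r1, r2] at hw
          omega
      · intro v hv
        simp at hv

/-- words over the letters outside `F`: never ambiguous -/
theorem unamb {F : Finset S} {α : Pattern S} (hα : ∀ a, Sum.inr a ∈ α → a ∈ F)
    {σ : ℕ → List S} (hσ : ∀ x, Sum.inl x ∈ α → ∀ a ∈ σ x, a ∉ F) : ¬ TCAmbiguous σ α := by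
  classical
  have horig : ∀ (τ : ℕ → List S) (β : Pattern S), (origin τ β).map Prod.fst = app τ β := by
    intro τ β
    induction β with
    | nil => rfl
    | cons s β ih =>
      rcases s with v | a
      · simp [ih, Function.comp_def]
      · simp [ih]
  -- counting the letters of `F`
  have hcount : ∀ (τ : ℕ → List S) (β : Pattern S), (∀ a, Sum.inr a ∈ β → a ∈ F) →
      (app τ β).countP (fun a => decide (a ∈ F)) =
        (origin τ β).countP (fun t => t.2) +
        (origin τ β).countP (fun t => decide (t.1 ∈ F) && !t.2) := by
    intro τ β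
    induction β with
    | nil => intro _; rfl
    | cons s β ih =>
      intro hb
      have ih' := ih (fun a ha => hb a (List.mem_cons_of_mem _ ha))
      rcases s with v | a
      · simp only [app_inl, origin_inl, List.countP_append, List.countP_map, ih']
        have h1 : List.countP ((fun t : S × Bool => t.2) ∘ fun a => (a, false)) (τ v) = 0 := by
          rw [List.countP_eq_zero]; simp
        have h2 : List.countP ((fun t : S × Bool => decide (t.1 ∈ F) && !t.2) ∘
            fun a => (a, false)) (τ v) = List.countP (fun a => decide (a ∈ F)) (τ v) := by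
          congr 1
          funext a
          simp
        omega
      · have ha : a ∈ F := hb a (by simp)
        simp only [app_inr, origin_inr]
        rw [List.countP_cons_of_pos (by simpa using ha), List.countP_cons_of_pos (by simp),
          List.countP_cons_of_neg (by simp), ih']
        omega
  have hterm : ∀ (τ : ℕ → List S) (β : Pattern S),
      (origin τ β).countP (fun t => t.2) = β.countP Sum.isRight := by
    intro τ β
    induction β with
    | nil => rfl
    | cons s β ih =>
      rcases s with v | a
      · simp only [origin_inl, List.countP_append, List.countP_map, ih]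
        rw [List.countP_cons_of_neg (by simp)]
        have h1 : List.countP ((fun t : S × Bool => t.2) ∘ fun a => (a, false)) (τ v) = 0 := by
          rw [List.countP_eq_zero]; simp
        omega
      · rw [origin_inr, List.countP_cons_of_pos (by simp), List.countP_cons_of_pos (by simp), ih]
  have hσ0 : (origin σ α).countP (fun t => decide (t.1 ∈ F) && !t.2) = 0 := by
    rw [List.countP_eq_zero]
    intro t ht
    unfold origin at ht
    obtain ⟨s, hs, ht⟩ := List.mem_flatMap.mp ht
    rcases s with v | a
    · simp only [Sum.elim_inl, List.mem_map] at ht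
      obtain ⟨b, hb, rfl⟩ := ht
      have := hσ v hs b hb
      simp [this]
    · simp only [Sum.elim_inr, List.mem_singleton] at ht
      rw [ht]; simp
  rintro ⟨τ₁, τ₂, h1, h2, i, c, h3, h4⟩
  have c1 := hcount τ₁ α hα
  have c0 := hcount σ α hα
  rw [h1, c0, hterm, hterm, hσ0] at c1
  have c2 : (origin τ₁ α).countP (fun t => decide (t.1 ∈ F) && !t.2) = 0 := by omega
  rw [List.countP_eq_zero] at c2
  have m1 := c2 _ (List.mem_of_getElem? h3)
  have hcF : c ∈ F := by
    have m2 := List.mem_of_getElem? h4
    unfold origin at m2
    obtain ⟨s, hs, ht⟩ := List.mem_flatMap.mp m2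
    rcases s with v | a
    · simp at ht
    · simp only [Sum.elim_inr, List.mem_singleton, Prod.mk.injEq] at ht
      rw [ht.1]
      exact hα a hs
  simp [hcF] at m1

/-- the code `x ↦ a^(x+1) b` is injective -/
theorem code_inj {a b : S} (hab : a ≠ b) :
    InjectiveSub (fun x : ℕ => List.replicate (x + 1) a ++ [b]) := by
  have step : ∀ (m k : ℕ) (u v : List S), List.replicate m a ++ b :: u =
      List.replicate k a ++ b :: v → m = k ∧ u = v := by
    intro m
    induction m with
    | zero =>
      intro k u v h
      cases k with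
      | zero => simpa using h
      | succ k =>
        simp only [List.replicate_zero, List.nil_append, List.replicate_succ, List.cons_append,
          List.cons.injEq] at h
        exact absurd h.1.symm hab
    | succ m ih =>
      intro k u v h
      cases k with
      | zero =>
        simp only [List.replicate_zero, List.nil_append, List.replicate_succ, List.cons_append,
          List.cons.injEq] at h
        exact absurd h.1 hab
      | succ k =>
        simp only [List.replicate_succ, List.cons_append, List.cons.injEq, true_and] at h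
        obtain ⟨e1, e2⟩ := ih k u v h
        exact ⟨by omega, e2⟩
  have main : ∀ u v : List ℕ,
      u.flatMap (fun x : ℕ => List.replicate (x + 1) a ++ [b]) =
        v.flatMap (fun x : ℕ => List.replicate (x + 1) a ++ [b]) → u = v := by
    intro u
    induction u with
    | nil =>
      intro v h
      cases v with
      | nil => rfl
      | cons y v => simp [List.replicate_succ] at h
    | cons x u ih =>
      intro v h
      cases v with
      | nil => simp [List.replicate_succ] at h
      | cons y v =>
        simp only [List.flatMap_cons, List.append_assoc, List.cons_append, List.nil_append] at h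
        obtain ⟨e1, e2⟩ := step _ _ _ _ h
        rw [ih v e2, show x = y by omega]
  intro u v _ _ h
  exact main u v h

/-- an injective substitution cannot map two variables into the powers of one letter -/
theorem inj_two {σ : ℕ → List S} (hσ : InjectiveSub σ) {u v : ℕ} (huv : u ≠ v)
    (P : S → Prop) (hP : ∀ a b, P a → P b → a = b) :
    ∃ a, ¬ P a ∧ (a ∈ σ u ∨ a ∈ σ v) := by
  classical
  by_contra hcon
  push Not at hcon
  have h1 : ∀ a ∈ σ u, P a := by
    intro a ha
    by_contra hp
    exact (hcon a hp).1 ha
  have h2 : ∀ a ∈ σ v, P a := by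
    intro a ha
    by_contra hp
    exact (hcon a hp).2 ha
  have hcomm : σ u ++ σ v = σ v ++ σ u := by
    by_cases hne : ∃ a, P a
    · obtain ⟨a, ha⟩ := hne
      have e1 : σ u = List.replicate (σ u).length a :=
        List.eq_replicate_iff.mpr ⟨rfl, fun b hb => hP b a (h1 b hb) ha⟩
      have e2 : σ v = List.replicate (σ v).length a :=
        List.eq_replicate_iff.mpr ⟨rfl, fun b hb => hP b a (h2 b hb) ha⟩
      rw [e1, e2, ← List.replicate_add, ← List.replicate_add, Nat.add_comm]
    · have e1 : σ u = [] := by
        by_contra hn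
        obtain ⟨a, ha⟩ := List.exists_mem_of_ne_nil _ hn
        exact hne ⟨a, h1 a ha⟩
      have e2 : σ v = [] := by
        by_contra hn
        obtain ⟨a, ha⟩ := List.exists_mem_of_ne_nil _ hn
        exact hne ⟨a, h2 a ha⟩
      rw [e1, e2]
  have := hσ [u, v] [v, u] (by simp) (by simp) (by simpa using hcomm)
  simp at this
  exact huv this.1

end Pool.Agent.Y846.TC
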